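import Pool.Agent.H63.YL.Defs

/-!
# Formulas of small depth over homogeneous formulas

`C.Hom L r a`: the formula at the node `a` (of arbitrary depth) is invariant under a product of full
symmetric groups of disjoint sets of pigeons and of disjoint sets of holes, all but `r` points lie in
such sets with at least `L` elements. `C.Built L r d a`: the formula is built in depth `d` from such
formulas, each with its own sets.
-/

set_option autoImplicit false

namespace Pool.Agent.H63.YL

/-- The formula at `a` is invariant under all permutations of the pigeons and of the holes which
preserve some colouring of the pigeons and one of the holes in which all but `r` points have a colour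
shared by at least `L` points. -/
def Circuit.Hom {P H : Type} (C : Circuit P H) (L r : ℕ) (a : C.N) : Prop :=
  ∃ (u : P → ℕ) (v : H → ℕ), (∀ (σ : Equiv.Perm P) (τ : Equiv.Perm H),
    (∀ i, u (σ i) = u i) → (∀ j, v (τ j) = v j) → C.Img σ τ a a) ∧ rare u L + rare v L ≤ r

/-- The formula at `a` is built in depth `d` from homogeneous formulas. -/
def Circuit.Built {P H : Type} (C : Circuit P H) (L r : ℕ) : ℕ → C.N → Prop
  | 0, a => C.Hom L r a
  | d + 1, a => C.Hom L r a ∨ ∀ x ∈ (C.gate a).children, C.Built L r d x.node

/-- The line `Λ` is homogeneous itself, or all its members are built in depth `d` from homogeneous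
formulas. -/
def Circuit.BuiltLine {P H : Type} (C : Circuit P H) (L r d : ℕ) (Λ : Set (Lit C.N)) : Prop :=
  C.Homogeneous L r Λ ∨ ∀ x ∈ Λ, C.Built L r d x.node

end Pool.Agent.H63.YL
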