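import Pool.Agent.H63.YQ.Dq
import Pool.Agent.H63.YL.Ext

/-!
# The levels of nodes in the extended circuit
-/

set_option autoImplicit false
set_option linter.unusedSectionVars false

namespace Pool.Agent.H63.YQ

open Pool.Agent.H63.YL Equiv

variable {P H : Type}

/-- the nodes below homogeneous nodes -/
def B0 (D : Circuit P H) (L r : ℕ) : Set D.N := {a | ∃ q, D.Hom L r q ∧ Below D q a}

/-- the levels -/
def BB (D : Circuit P H) (L r : ℕ) : ℕ → Set D.N
  | 0 => B0 D L r
  | i + 1 => BB D L r i ∪ {a | ∃ S, D.gate a = .and S ∧ ∀ x ∈ S, x.node ∈ BB D L r i}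

theorem BB_succ (D : Circuit P H) (L r i : ℕ) : BB D L r i ⊆ BB D L r (i + 1) :=
  Set.subset_union_left

theorem BB_zero (D : Circuit P H) (L r i : ℕ) : B0 D L r ⊆ BB D L r i := by
  induction i with
  | zero => exact subset_rfl
  | succ i ih => exact ih.trans (BB_succ D L r i)

theorem BB_new (D : Circuit P H) (L r i : ℕ) : ∀ a ∈ BB D L r (i + 1), a ∉ BB D L r i →
    ∃ S, D.gate a = .and S ∧ ∀ x ∈ S, x.node ∈ BB D L r i := by
  rintro a (h | h) h'
  · exact absurd h h'
  · exact h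

theorem rare_mono [Finite P] {u : P → ℕ} {L L' : ℕ} (h : L' ≤ L) : rare u L' ≤ rare u L := by
  unfold rare
  refine Set.ncard_le_ncard ?_ (Set.toFinite _)
  intro i hi
  exact lt_of_lt_of_le hi h

theorem Hom.mono [Finite P] [Finite H] {C : Circuit P H} {L L' r r' : ℕ} (hL : L' ≤ L)
    (hr : r ≤ r') {a : C.N} (ha : C.Hom L r a) : C.Hom L' r' a := by
  obtain ⟨u, v, huv, h⟩ := ha
  refine ⟨u, v, huv, ?_⟩
  have h1 := rare_mono (u := u) hL
  have h2 := rare_mono (u := v) hL
  omega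

theorem Built.mono [Finite P] [Finite H] {C : Circuit P H} {L L' r r' : ℕ} (hL : L' ≤ L)
    (hr : r ≤ r') {d : ℕ} : ∀ {a : C.N}, C.Built L r d a → C.Built L' r' d a := by
  induction d with
  | zero => intro a ha; exact Hom.mono hL hr ha
  | succ d ih =>
    rintro a (ha | ha)
    · exact Or.inl (Hom.mono hL hr ha)
    · exact Or.inr fun x hx => ih (ha x hx)

theorem BuiltLine.mono [Finite P] [Finite H] {C : Circuit P H} {L L' r r' : ℕ} (hL : L' ≤ L)
    (hr : r ≤ r') {d : ℕ} {Λ : Set (Lit C.N)} (hΛ : C.BuiltLine L r d Λ) :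
    C.BuiltLine L' r' d Λ := by
  rcases hΛ with ⟨u, v, huv, h⟩ | hΛ
  · left
    refine ⟨u, v, huv, ?_⟩
    have h1 := rare_mono (u := u) hL
    have h2 := rare_mono (u := v) hL
    omega
  · exact Or.inr fun x hx => Built.mono hL hr (hΛ x hx)

theorem rare_one [Fintype P] [DecidableEq P] (i : P) {L : ℕ} (hL : L + 1 ≤ Fintype.card P) :
    rare (fun i' : P => if i' = i then 1 else 0) L ≤ 1 := by
  unfold rare
  have h1 : {i' : P | {i'' : P | (if i'' = i then 1 else 0) = (if i' = i then 1 else 0)}.ncard < L} ⊆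
      {i} := by
    intro i' hi'
    by_contra hne
    have hne' : ¬ i' = i := fun h => hne (by rw [h]; rfl)
    rw [Set.mem_setOf_eq, if_neg hne'] at hi'
    have h2 : {i'' : P | (if i'' = i then 1 else 0) = 0} = ((Finset.univ.erase i : Finset P) : Set P) := by
      ext x
      simp
    rw [h2, Set.ncard_coe_finset, Finset.card_erase_of_mem (Finset.mem_univ _),
      Finset.card_univ] at hi'
    omega
  refine (Set.ncard_le_ncard h1 (Set.toFinite _)).trans ?_
  rw [Set.ncard_singleton]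

/-- variables are homogeneous -/
theorem hom_var [Fintype P] [Fintype H] [DecidableEq P] [DecidableEq H] {C : Circuit P H} {a : C.N}
    {i : P} {j : H} (h : C.gate a = .var i j) {L : ℕ} (hP : L + 1 ≤ Fintype.card P)
    (hH : L + 1 ≤ Fintype.card H) : C.Hom L 2 a := by
  refine ⟨fun i' => if i' = i then 1 else 0, fun j' => if j' = j then 1 else 0, ?_, ?_⟩
  · intro σ τ hσ hτ
    have h1 : σ i = i := by
      have := hσ i
      by_contra h2
      simp [h2] at this
    have h2 : τ j = j := by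
      have := hτ j
      by_contra h2
      simp [h2] at this
    refine ⟨fun x y => x = a ∧ y = a, ?_, rfl, rfl⟩
    rintro x y ⟨rfl, rfl⟩
    exact Or.inl ⟨i, j, h, by rw [h1, h2, h]⟩
  · have h1 := rare_one i hP
    have h2 := rare_one j hH
    exact Nat.add_le_add h1 h2

theorem hom_ext (R : Refutation P H) {L r : ℕ} {a : R.C.N} (h : R.C.Hom L r a) :
    R.ext.Hom L r (Sum.inl a) := by
  obtain ⟨u, v, huv, hr⟩ := h
  exact ⟨u, v, fun σ τ hσ hτ => img_ext R (huv σ τ hσ hτ), hr⟩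

theorem built_mem [Fintype P] [Fintype H] (R : Refutation P H) [DecidableEq P] [DecidableEq H]
    {L r : ℕ} (hr : 2 ≤ r) (hP : L + 1 ≤ Fintype.card P) (hH : L + 1 ≤ Fintype.card H)
    {d : ℕ} : ∀ {a : R.C.N}, R.C.Built L r d a → (Sum.inl a : R.ext.N) ∈ BB R.ext L r d := by
  induction d with
  | zero => intro a ha; exact ⟨_, hom_ext R ha, Below.refl⟩
  | succ d ih =>
    rintro a (ha | ha)
    · exact BB_zero _ _ _ _ ⟨_, hom_ext R ha, Below.refl⟩
    · rcases hg : R.C.gate a with ⟨i, j⟩ | S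
      · refine BB_zero _ _ _ _ ⟨_, Hom.mono le_rfl hr (hom_var (i := i) (j := j) ?_ hP hH),
          Below.refl⟩
        rw [ext_gate_inl, hg]; rfl
      · right
        refine ⟨Lit.map Sum.inl '' S, by rw [ext_gate_inl, hg]; rfl, ?_⟩
        rintro _ ⟨x, hx, rfl⟩
        exact ih (ha x (by rw [hg]; exact hx))

/-- the nodes of the lines -/
theorem line_mem [Fintype P] [Fintype H] (R : Refutation P H) [DecidableEq P] [DecidableEq H]
    {L r : ℕ} (hr : 2 ≤ r) (hP : L + 1 ≤ Fintype.card P) (hH : L + 1 ≤ Fintype.card H)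
    {d : ℕ} {Λ : R.lines} (h : R.C.BuiltLine L r d Λ.1) :
    (Sum.inr Λ : R.ext.N) ∈ BB R.ext L r (d + 1) := by
  rcases h with ⟨u, v, huv, hr'⟩ | h
  · refine BB_zero _ _ _ _ ⟨Sum.inr Λ, ⟨u, v, ?_, hr'⟩, Below.refl⟩
    intro σ τ hσ hτ
    exact img_line R (huv σ τ hσ hτ)
  · right
    refine ⟨_, ext_gate_inr R Λ, ?_⟩
    rintro _ ⟨x, hx, rfl⟩
    exact built_mem R hr hP hH (h x hx)

end Pool.Agent.H63.YQ
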