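import Pool.Agent.H63.YQ.Init
import Pool.Agent.H63.YQ.Climb

/-!
# The lower bound for formulas of small depth over homogeneous formulas
-/

set_option autoImplicit false

namespace Pool.Agent.H63.YQ

open Finset Pool.Agent.H63.YL

/-- the exponent -/
def ce (d : ℕ) : ℕ := 4 * (cc (d + 1) 4 + 100) + 63

theorem core (d : ℕ) {n L r t : ℕ} (ht : 2 ≤ t) (hr : 2 ≤ r) (hn : n < 2 ^ t)
    (hL : 2 ^ 15 * n * t ≤ L ^ 2) (hcn : r * (ce d * t) ^ ce d ≤ n)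
    (R : Refutation (Fin (n + 1)) (Fin n)) (hR : ∀ Λ ∈ R.lines, R.C.BuiltLine L r d Λ) :
    2 ^ t ≤ R.size := by
  classical
  obtain ⟨c', hc'⟩ : ∃ c', c' = cc (d + 1) 4 := ⟨_, rfl⟩
  have hclimb := climb (d + 1) 4 (by norm_num)
  rw [← hc'] at hclimb
  obtain ⟨C, hC⟩ : ∃ C, C = c' + 100 := ⟨_, rfl⟩
  obtain ⟨c, hc⟩ : ∃ c, c = ce d := ⟨_, rfl⟩
  have hc2 : c = 4 * C + 63 := by rw [hc, ce, ← hc', hC]
  rw [← hc] at hcn
  by_contra hcon
  push Not at hcon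
  have hcard : Nat.card R.ext.N = R.size := card_ext R
  have hCt : 1 ≤ C * t := Nat.mul_pos (by omega) (by omega)
  obtain ⟨l, hl⟩ : ∃ l, l = (C * t) ^ C := ⟨_, rfl⟩
  have hl0 : C * t ≤ l := by
    rw [hl]
    calc C * t = (C * t) ^ 1 := (pow_one _).symm
      _ ≤ (C * t) ^ C := Nat.pow_le_pow_right hCt (by omega)
  have hct : 1 ≤ c * t := Nat.mul_pos (by omega) (by omega)
  have e1 : 2 ≤ c * t := by
    calc 2 ≤ c * 1 := by omega
      _ ≤ c * t := Nat.mul_le_mul_left c (by omega)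
  have e2 : t ≤ c * t := Nat.le_mul_of_pos_left _ (by omega)
  have e3 : ∀ k, l ^ k ≤ (c * t) ^ (k * C) := by
    intro k
    rw [hl, ← pow_mul, mul_comm C k]
    exact Nat.pow_le_pow_left (Nat.mul_le_mul_right t (by omega)) _
  have h1 : 2 ^ 60 * t * l ^ 4 ≤ n := by
    refine le_trans ?_ hcn
    calc 2 ^ 60 * t * l ^ 4
        ≤ (c * t) ^ 60 * (c * t) ^ 1 * (c * t) ^ (4 * C) := by
          refine Nat.mul_le_mul (Nat.mul_le_mul (Nat.pow_le_pow_left e1 60) ?_) (e3 4)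
          rw [pow_one]; exact e2
      _ = 1 * (c * t) ^ (60 + 1 + 4 * C) := by rw [← pow_add, ← pow_add, one_mul]
      _ ≤ r * (c * t) ^ c :=
          Nat.mul_le_mul (by omega) (Nat.pow_le_pow_right hct (by omega))
  have h2 : 2 ^ 10 * r * l ^ 2 ≤ n := by
    refine le_trans ?_ hcn
    calc 2 ^ 10 * r * l ^ 2 = r * (2 ^ 10 * l ^ 2) := by ring
      _ ≤ r * ((c * t) ^ 10 * (c * t) ^ (2 * C)) := by
          refine Nat.mul_le_mul_left _ (Nat.mul_le_mul (Nat.pow_le_pow_left e1 10) (e3 2))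
      _ = r * (c * t) ^ (10 + 2 * C) := by rw [← pow_add]
      _ ≤ r * (c * t) ^ c :=
          Nat.mul_le_mul_left _ (Nat.pow_le_pow_right hct (by omega))
  have h3 : 2 ^ 60 * t ≤ n := by
    refine le_trans ?_ h1
    calc 2 ^ 60 * t = 2 ^ 60 * t * 1 := by ring
      _ ≤ 2 ^ 60 * t * l ^ 4 := Nat.mul_le_mul_left _ (Nat.one_le_pow _ _ (by omega))
  -- a smaller `L`
  obtain ⟨L', hL', hL1, hL2⟩ : ∃ L' : ℕ, L' ≤ L ∧ 2 ^ 15 * n * t ≤ L' ^ 2 ∧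
      L' ^ 2 ≤ 2 ^ 17 * n * t := by
    have h4 : (Nat.sqrt (2 ^ 15 * n * t) + 1) ^ 2 ≤ 2 ^ 17 * n * t := by
      have h5 := Nat.sqrt_le' (2 ^ 15 * n * t)
      have h6 : 1 ≤ Nat.sqrt (2 ^ 15 * n * t) := by
        rw [Nat.le_sqrt]
        calc 1 * 1 ≤ 2 ^ 15 * 1 * 1 := by norm_num
          _ ≤ 2 ^ 15 * n * t := Nat.mul_le_mul (Nat.mul_le_mul_left _ (by omega)) (by omega)
      calc (Nat.sqrt (2 ^ 15 * n * t) + 1) ^ 2 ≤ (2 * Nat.sqrt (2 ^ 15 * n * t)) ^ 2 :=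
            Nat.pow_le_pow_left (by omega) 2
        _ = 4 * Nat.sqrt (2 ^ 15 * n * t) ^ 2 := by ring
        _ ≤ 4 * (2 ^ 15 * n * t) := Nat.mul_le_mul_left _ h5
        _ = 2 ^ 17 * n * t := by ring
    rcases Nat.le_total L (Nat.sqrt (2 ^ 15 * n * t) + 1) with h5 | h5
    · exact ⟨L, le_rfl, hL, (Nat.pow_le_pow_left h5 2).trans h4⟩
    · exact ⟨_, h5, (Nat.lt_succ_sqrt' _).le, h4⟩
  have hLn : L' + 1 ≤ n := by
    by_contra h4
    push Not at h4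
    have h5 : n ^ 2 ≤ L' ^ 2 := Nat.pow_le_pow_left (by omega) 2
    have h6 : n * n ≤ n * (2 ^ 17 * t) := by
      calc n * n = n ^ 2 := (pow_two n).symm
        _ ≤ 2 ^ 17 * n * t := h5.trans hL2
        _ = n * (2 ^ 17 * t) := by ring
    have h7 := Nat.le_of_mul_le_mul_left h6 (by omega)
    omega
  obtain ⟨f, V, E, hf⟩ := init (L := L') (r := r) R.ext (by omega) hn
    (by rw [hcard]; exact hcon) hL1 hL2 h1 h2
    (by
      refine le_trans ?_ hl0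
      exact Nat.mul_le_mul_right t (by omega))
  obtain ⟨f', s', V', E'⟩ := hclimb n t R.ext L' r 0 l f V (by omega) hn
    (by rw [hcard]; exact hcon) E hf
    (by
      rw [hl]
      calc (c' * t) ^ c' ≤ (C * t) ^ c' := Nat.pow_le_pow_left (Nat.mul_le_mul_right t (by omega)) _
        _ ≤ (C * t) ^ C := Nat.pow_le_pow_right hCt (by omega))
  refine E'.false fun Λ => ?_
  rw [zero_add]
  exact line_mem R hr (by rw [Fintype.card_fin]; omega) (by rw [Fintype.card_fin]; omega)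
    (BuiltLine.mono hL' le_rfl (hR Λ.1 Λ.2))

/-- the exponent as a power -/
theorem ce_le (d : ℕ) : 2 * ce d + 2 ≤ (2 ^ 22) ^ (d + 1) := by
  obtain ⟨K, hK⟩ : ∃ K, K = 256 ^ (d + 1) := ⟨_, rfl⟩
  have hK1 : 1 ≤ K := by rw [hK]; exact Nat.one_le_pow _ _ (by norm_num)
  have h1 : 2 * ce d + 2 ≤ 2 ^ 14 * K := by
    have e : 256 ^ (d + 1 + 1) = K * 256 := by rw [hK, pow_succ]
    unfold ce cc
    rw [e]
    omega
  refine h1.trans ?_
  have h4 : (2 ^ 22) ^ (d + 1) = (2 ^ 14) ^ (d + 1) * K := by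
    rw [hK, ← mul_pow]
    norm_num
  rw [h4]
  refine Nat.mul_le_mul_right _ ?_
  calc 2 ^ 14 = (2 ^ 14) ^ 1 := (pow_one _).symm
    _ ≤ (2 ^ 14) ^ (d + 1) := Nat.pow_le_pow_right (by norm_num) (by omega)

/-- **Lower bound for formulas of small depth over homogeneous formulas.** -/
theorem plus : ∃ c : ℕ, ∀ d n L r t : ℕ, c ^ (d + 1) ≤ t → n < 2 ^ t →
    2 ^ 15 * n * t ≤ L ^ 2 → (r + 1) * t ^ c ^ (d + 1) ≤ n →
    ∀ R : Refutation (Fin (n + 1)) (Fin n), (∀ Λ ∈ R.lines, R.C.BuiltLine L r d Λ) →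
      2 ^ t ≤ R.size := by
  refine ⟨2 ^ 22, ?_⟩
  intro d n L r t ht hn hL hrt R hR
  have hce := ce_le d
  obtain ⟨E, hE⟩ : ∃ E, E = (2 ^ 22) ^ (d + 1) := ⟨_, rfl⟩
  rw [← hE] at ht hrt hce
  obtain ⟨c₀, hc₀⟩ : ∃ c₀, c₀ = ce d := ⟨_, rfl⟩
  have hc1 : 1 ≤ c₀ := by rw [hc₀, ce]; omega
  rw [← hc₀] at hce
  have ht1 : 2 ≤ t := by omega
  have h4 : (r + 2) * (c₀ * t) ^ c₀ ≤ n := by
    refine le_trans ?_ hrt
    calc (r + 2) * (c₀ * t) ^ c₀ ≤ ((r + 1) * 2) * (t * t) ^ c₀ := by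
          refine Nat.mul_le_mul (by omega) ?_
          exact Nat.pow_le_pow_left (Nat.mul_le_mul_right t (by omega)) _
      _ ≤ ((r + 1) * t) * (t * t) ^ c₀ :=
          Nat.mul_le_mul_right _ (Nat.mul_le_mul_left _ ht1)
      _ = (r + 1) * t ^ (1 + 2 * c₀) := by rw [← pow_two t, ← pow_mul, mul_assoc, pow_add, pow_one]
      _ ≤ (r + 1) * t ^ E :=
          Nat.mul_le_mul_left _ (Nat.pow_le_pow_right (by omega) (by omega))
  exact core d ht1 (by omega) hn hL (hc₀ ▸ h4) R fun Λ hΛ =>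
    BuiltLine.mono le_rfl (by omega) (hR Λ hΛ)

end Pool.Agent.H63.YQ
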