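import Pool.Agent.H63.YP.Fr
import Pool.Agent.H63.YP.EvQ
import Pool.Agent.H63.YQ.Lev
import Pool.Agent.H63.YL.Final

/-!
# The first level
-/

set_option autoImplicit false
set_option linter.unusedSectionVars false

namespace Pool.Agent.H63.YQ

open Finset Pool.Agent.H63.YL Pool.Agent.H63.YP

theorem hom_small {P H : Type} [Fintype P] [DecidableEq P] [Fintype H] [DecidableEq H]
    {D : Circuit P H} {L r : ℕ} (hL : 3 ≤ L) {q : D.N} (h : D.Hom L r q) :
    (small D L q).card ≤ r := by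
  classical
  obtain ⟨u, v, huv, hr⟩ := h
  have h1 : small D L q ⊆
      ((univ.filter fun i : P => {i' : P | u i' = u i}.ncard < L).image Sum.inl) ∪
      ((univ.filter fun j : H => {j' : H | v j' = v j}.ncard < L).image Sum.inr) := by
    intro x hx
    rw [mem_small] at hx
    rw [mem_union, mem_image, mem_image]
    rcases x with i | j
    · left
      refine ⟨i, mem_filter.2 ⟨mem_univ _, ?_⟩, rfl⟩
      by_contra h2
      have h3 := block_inl (C := D) (a := q) (u := u)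
        (fun σ hσ => huv σ 1 hσ (fun _ => rfl)) hL (i := i) (by omega)
      omega
    · right
      refine ⟨j, mem_filter.2 ⟨mem_univ _, ?_⟩, rfl⟩
      by_contra h2
      have h3 := block_inr (C := D) (a := q) (v := v)
        (fun τ hτ => huv 1 τ (fun _ => rfl) hτ) hL (j := j) (by omega)
      omega
  refine (card_le_card h1).trans ((card_union_le _ _).trans ?_)
  rw [card_image_of_injective _ Sum.inl_injective, card_image_of_injective _ Sum.inr_injective]
  refine le_trans (le_of_eq ?_) hr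
  unfold rare
  have e1 : {i : P | {i' : P | u i' = u i}.ncard < L} =
      ((univ.filter fun i : P => {i' : P | u i' = u i}.ncard < L : Finset P) : Set P) := by
    ext; simp
  have e2 : {j : H | {j' : H | v j' = v j}.ncard < L} =
      ((univ.filter fun j : H => {j' : H | v j' = v j}.ncard < L : Finset H) : Set H) := by
    ext; simp
  rw [e1, e2, Set.ncard_coe_finset, Set.ncard_coe_finset]

private theorem nums {n t r l L : ℕ} (ht : 1 ≤ t) (hl : 2 ^ 60 * t * l ^ 4 ≤ n)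
    (hr : 2 ^ 10 * r * l ^ 2 ≤ n)
    (hl2 : 100 * t ≤ l) (hL1 : 2 ^ 15 * n * t ≤ L ^ 2) (hL2 : L ^ 2 ≤ 2 ^ 17 * n * t) :
    2 ^ 37 * t ≤ L ∧ 1000 ≤ n ∧ (l + 1) * l * (4 * (r + 2 * L)) + l ≤ n / 4 ∧ 2 ^ 60 * t ≤ n := by
  have hl1 : 1 ≤ l := by omega
  have h1 : 1 ≤ l ^ 4 := Nat.one_le_pow _ _ hl1
  have h3 : 2 ^ 60 * t ≤ n := by
    refine le_trans ?_ hl
    calc 2 ^ 60 * t = 2 ^ 60 * t * 1 := by ring
      _ ≤ 2 ^ 60 * t * l ^ 4 := Nat.mul_le_mul_left _ h1
  have hn : 2 ^ 60 ≤ n := by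
    refine le_trans ?_ h3
    exact Nat.le_mul_of_pos_right _ ht
  refine ⟨?_, by omega, ?_, h3⟩
  · by_contra h5
    push Not at h5
    have h6 : L ^ 2 < (2 ^ 37 * t) ^ 2 := Nat.pow_lt_pow_left h5 (by norm_num)
    have h7 : (2 ^ 37 * t) ^ 2 ≤ 2 ^ 15 * n * t := by
      calc (2 ^ 37 * t) ^ 2 = 2 ^ 74 * t ^ 2 := by ring
        _ ≤ 2 ^ 75 * t ^ 2 := Nat.mul_le_mul_right _ (by norm_num)
        _ = 2 ^ 15 * (2 ^ 60 * t) * t := by ring
        _ ≤ 2 ^ 15 * n * t := Nat.mul_le_mul_right t (Nat.mul_le_mul_left _ h3)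
    omega
  · have h5 : (2 ^ 16 * (16 * L * l ^ 2)) ^ 2 ≤ n ^ 2 := by
      calc (2 ^ 16 * (16 * L * l ^ 2)) ^ 2 = 2 ^ 40 * l ^ 4 * L ^ 2 := by ring
        _ ≤ 2 ^ 40 * l ^ 4 * (2 ^ 17 * n * t) := Nat.mul_le_mul_left _ hL2
        _ = 2 ^ 57 * t * l ^ 4 * n := by ring
        _ ≤ 2 ^ 60 * t * l ^ 4 * n := by
            refine Nat.mul_le_mul_right _ (Nat.mul_le_mul_right _ (Nat.mul_le_mul_right _ ?_))
            norm_num
        _ ≤ n * n := Nat.mul_le_mul_right _ hl
        _ = n ^ 2 := (pow_two n).symm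
    have h6 : 2 ^ 16 * (16 * L * l ^ 2) ≤ n := by
      by_contra h7
      push Not at h7
      have := Nat.pow_lt_pow_left h7 (by norm_num : (2 : ℕ) ≠ 0)
      omega
    have h7 : (l + 1) * l * (4 * (r + 2 * L)) ≤ 8 * (r * l ^ 2) + 16 * L * l ^ 2 := by
      calc (l + 1) * l * (4 * (r + 2 * L)) ≤ (2 * l) * l * (4 * (r + 2 * L)) := by
            refine Nat.mul_le_mul_right _ (Nat.mul_le_mul_right _ (by omega))
        _ = 8 * (r * l ^ 2) + 16 * L * l ^ 2 := by ring
    have h7' : 2 ^ 10 * (r * l ^ 2) ≤ n := by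
      calc 2 ^ 10 * (r * l ^ 2) = 2 ^ 10 * r * l ^ 2 := by ring
        _ ≤ n := hr
    have h8 : l ≤ l ^ 4 := by
      calc l = l ^ 1 := (pow_one _).symm
        _ ≤ l ^ 4 := Nat.pow_le_pow_right hl1 (by norm_num)
    have h9 : 2 ^ 60 * l ≤ n := by
      refine le_trans ?_ hl
      calc 2 ^ 60 * l = 2 ^ 60 * 1 * l := by ring
        _ ≤ 2 ^ 60 * t * l ^ 4 := Nat.mul_le_mul (Nat.mul_le_mul_left _ ht) h8
    omega

/-- **The first level.** -/
theorem init {n t l L r : ℕ} (D : Circuit (Fin (n + 1)) (Fin n)) (ht : 1 ≤ t) (hn : n < 2 ^ t)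
    (hS : Nat.card D.N < 2 ^ t) (hL1 : 2 ^ 15 * n * t ≤ L ^ 2) (hL2 : L ^ 2 ≤ 2 ^ 17 * n * t)
    (hl : 2 ^ 60 * t * l ^ 4 ≤ n) (hr : 2 ^ 10 * r * l ^ 2 ≤ n)
    (hl2 : 100 * t ≤ l) :
    ∃ (f : Finset (Fin (n + 1) × Fin n)) (R : Finset (Fin (n + 1) × Fin n) → D.N → Bool → Prop),
      Ev D (BB D L r 0) f (4 * t) n R ∧ f.card + l = n := by
  classical
  have : Fintype D.N := Fintype.ofFinite D.N
  have hcardP : Fintype.card (Fin (n + 1)) = n + 1 := Fintype.card_fin _
  have hcardH : Fintype.card (Fin n) = n := Fintype.card_fin _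
  have hZ : Fintype.card (Fin (n + 1) ⊕ Fin n) = 2 * n + 1 := by
    rw [Fintype.card_sum, hcardP, hcardH]; omega
  obtain ⟨hLt, hn1, hbig, htn⟩ := nums ht hl hr hl2 hL1 hL2
  obtain ⟨K, hK⟩ : ∃ K, K = L / 2 := ⟨_, rfl⟩
  obtain ⟨T, hT⟩ : ∃ T, T = t + 1 := ⟨_, rfl⟩
  have hKL : L ≤ 2 * K + 1 := by omega
  have hK1 : 2 ^ 35 * t ≤ K := by omega
  have hLn : K ≤ n := by
    have h1 : L * L ≤ n * n := by
      calc L * L = L ^ 2 := (pow_two L).symm
        _ ≤ 2 ^ 17 * n * t := hL2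
        _ = n * (2 ^ 17 * t) := by ring
        _ ≤ n * n := Nat.mul_le_mul_left n (le_trans (Nat.mul_le_mul_right t (by norm_num)) htn)
    have h2 : L ≤ n := Nat.mul_self_le_mul_self_iff.1 h1
    omega
  obtain ⟨f₁, hf₁, hf₁m, hrich⟩ := exists_rich_all D (m := n / 2) (K := K) (κ := 12 * T + 4)
    (by rw [hcardP]; omega) (by rw [hcardH]; omega) (by rw [hcardP]; omega)
    (by rw [hcardH]; omega) (by rw [hcardP]; omega) (by rw [hcardH]; omega)
    (by
      rw [hcardP, hcardH, hT]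
      exact numeric ht hn hL1 hS hn1 hK (by omega))
  have hT2 : 2 * Nat.card D.N < 2 ^ T := by rw [hT, pow_succ]; omega
  have hKLn : 3 * T * (2 * n + 1) ≤ K * L := by
    have h1 : 3 * T * (2 * n + 1) ≤ 18 * (n * t) := by
      calc 3 * T * (2 * n + 1) ≤ 3 * (2 * t) * (3 * n) :=
            Nat.mul_le_mul (Nat.mul_le_mul_left 3 (by omega)) (by omega)
        _ = 18 * (n * t) := by ring
    have h2 : 2 ^ 15 * (n * t) ≤ L * L := by
      calc 2 ^ 15 * (n * t) = 2 ^ 15 * n * t := by ring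
        _ ≤ L ^ 2 := hL1
        _ = L * L := pow_two L
    have h3 : L * L ≤ (2 * K + 1) * L := Nat.mul_le_mul_right L hKL
    have h4 : (2 * K + 1) * L ≤ 3 * (K * L) := by
      calc (2 * K + 1) * L ≤ (3 * K) * L := Nat.mul_le_mul_right L (by omega)
        _ = 3 * (K * L) := by ring
    omega
  -- sizes
  have hsmall : ∀ a ∈ BB D L r 0, (small D K a).card ≤ r + L := by
    rintro a ⟨q, hq, hqa⟩
    have h1 := small_card hqa (K := K) (L := L) hT2 (by omega) (by omega) (by omega)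
    have h2 := hom_small (L := L) (by omega) hq
    have h3 : 3 * T * Fintype.card (Fin (n + 1) ⊕ Fin n) / L ≤ L := by
      rw [hZ]
      apply Nat.div_le_of_le_mul
      exact hKLn.trans (Nat.mul_le_mul_right L (by omega))
    omega
  have hsup : ∀ a ∈ BB D L r 0, ∀ y, Below D a y → (sup D a y).card ≤ r + 2 * L := by
    intro a ha y hy
    have h1 := sup_card hy (M := K) hT2 (by omega) (by omega)
    have h2 := hsmall a ha
    have h3 : 3 * T * Fintype.card (Fin (n + 1) ⊕ Fin n) / K ≤ L := by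
      rw [hZ]
      apply Nat.div_le_of_le_mul
      exact hKLn
    omega
  have hsmall' : ∀ a ∈ BB D L r 0, (small D K a).card ≤ r + 2 * L := by
    intro a ha
    have := hsmall a ha
    omega
  -- the sets
  let X : D.N ⊕ (D.N × D.N) → Finset (Fin (n + 1) ⊕ Fin n) := Sum.elim
    (fun a => if a ∈ BB D L r 0 then small D K a else ∅)
    (fun y => if y.1 ∈ BB D L r 0 ∧ Below D y.1 y.2 then sup D y.1 y.2 else ∅)
  have hX : ∀ i, (X i).card ≤ r + 2 * L := by
    rintro (a | ⟨a, y⟩)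
    · simp only [X, Sum.elim_inl]
      split_ifs with h
      · exact hsmall' a h
      · simp
    · simp only [X, Sum.elim_inr]
      split_ifs with h
      · exact hsup a h.1 y h.2
      · simp
  obtain ⟨f, hf, hff, hfc, hfew⟩ := exists_few X (f := f₁) (w := r + 2 * L) (l := l) (r := t + 1)
    hX hf₁ (by rw [hcardH, hcardP]; omega) (by rw [hcardH, hf₁m]; omega) (by omega)
    (by
      rw [hcardH, hcardP, hf₁m]
      have e1 : n + 1 - (n - l) = l + 1 := by omega
      have e2 : n - (n - l) = l := by omega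
      rw [e1, e2]
      omega)
    (by
      rw [Fintype.card_sum, Fintype.card_prod, ← Nat.card_eq_fintype_card (α := D.N)]
      set S := Nat.card D.N with hSdef
      have h1 : S + 1 ≤ 2 ^ t := hS
      have h2 : (0 : ℕ) < 2 ^ t := by positivity
      calc 2 * (S + S * S) = 2 * (S * (S + 1)) := by ring
        _ ≤ 2 * (2 ^ t * 2 ^ t) := Nat.mul_le_mul_left 2 (Nat.mul_le_mul hS.le h1)
        _ < 4 * (2 ^ t * 2 ^ t) := by
            have : 0 < 2 ^ t * 2 ^ t := Nat.mul_pos h2 h2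
            omega
        _ = 4 ^ (t + 1) := by
            rw [← pow_add, ← two_mul, pow_mul, pow_succ]
            norm_num
            ring)
  rw [hcardH] at hfc
  have E := ev_free (D := D) (B := BB D L r 0) (f := f) (s := 4 * t) (T := T) (K := K) ?_ hT2
    (by omega) hf (fun a _ => (hrich a).mono hff) ?_ ?_ (by rw [hcardH, hcardP]; omega)
    (by rw [hcardH]; omega)
  · rw [hcardH] at E
    exact ⟨f, _, E, by omega⟩
  · rintro a ⟨r, hr, hra⟩ x hx
    exact ⟨r, hr, hra.child hx⟩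
  · intro a ha
    have h1 := hfew (Sum.inl a)
    simp only [X, Sum.elim_inl, if_pos ha] at h1
    omega
  · intro a ha y hy
    have h1 := hfew (Sum.inr (a, y))
    simp only [X, Sum.elim_inr] at h1
    rw [if_pos ⟨ha, hy⟩] at h1
    omega

end Pool.Agent.H63.YQ
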